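import Pool.Agent.Y795.PiH.Stm

/-!
# Hankel determinants of linear forms in `1` and `π`: the solution at level one (PH8)
-/

set_option autoImplicit false

open Polynomial

namespace Pool.Agent.Y119.PiH

open Pool.Agent.H326R2.Pi Pool.Agent.Y795.PiH

/-- coefficients of the difference of the two sides -/
theorem coeffs {R : Type*} [CommRing R] {e0 e1 e2 e3 e4 e5 e6 e7 e8 : R}
    (h : C e0 + C e1 * X + C e2 * X ^ 2 + C e3 * X ^ 3 + C e4 * X ^ 4 + C e5 * X ^ 5 + C e6 * X ^ 6 +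
      C e7 * X ^ 7 + C e8 * X ^ 8 = (0 : R[X])) :
    e0 = 0 ∧ e1 = 0 ∧ e2 = 0 ∧ e3 = 0 ∧ e4 = 0 ∧ e5 = 0 ∧ e6 = 0 ∧ e7 = 0 ∧ e8 = 0 := by
  have hc := fun n => congrArg (fun P : R[X] => P.coeff n) h
  refine ⟨?_, ?_, ?_, ?_, ?_, ?_, ?_, ?_, ?_⟩
  · simpa [coeff_X, coeff_C, coeff_X_pow] using hc 0
  · simpa [coeff_X, coeff_C, coeff_X_pow] using hc 1
  · simpa [coeff_X, coeff_C, coeff_X_pow] using hc 2
  · simpa [coeff_X, coeff_C, coeff_X_pow] using hc 3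
  · simpa [coeff_X, coeff_C, coeff_X_pow] using hc 4
  · simpa [coeff_X, coeff_C, coeff_X_pow] using hc 5
  · simpa [coeff_X, coeff_C, coeff_X_pow] using hc 6
  · simpa [coeff_X, coeff_C, coeff_X_pow] using hc 7
  · simpa [coeff_X, coeff_C, coeff_X_pow] using hc 8

theorem lev1 : S_lev1 := by
  intro p hpf hp G r0 r1 r2 k hG h
  have h2 : (2 : ZMod p) ≠ 0 := by
    have h3 : ((2 : ℕ) : ZMod p) ≠ 0 := by
      rw [Ne, ZMod.natCast_eq_zero_iff]
      intro hd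
      have := Nat.le_of_dvd (by norm_num) hd
      omega
    exact_mod_cast h3
  set g0 := G.coeff 0 with hg0
  set g1 := G.coeff 1 with hg1
  set g2 := G.coeff 2 with hg2
  set g3 := G.coeff 3 with hg3
  set g4 := G.coeff 4 with hg4
  set g5 := G.coeff 5 with hg5
  set g6 := G.coeff 6 with hg6
  set g7 := G.coeff 7 with hg7
  have hGe : G = C g0 + C g1 * X + C g2 * X ^ 2 + C g3 * X ^ 3 + C g4 * X ^ 4 + C g5 * X ^ 5 + C g6 * X ^ 6 +
      C g7 * X ^ 7 := by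
    conv_lhs => rw [G.as_sum_range' 8 (by omega)]
    simp only [Finset.sum_range_succ, Finset.sum_range_zero, ← C_mul_X_pow_eq_monomial, zero_add, pow_zero, mul_one, pow_one]
    rfl
  have hev : G.eval 2 = g0 + 2 * g1 + 4 * g2 + 8 * g3 + 16 * g4 + 32 * g5 + 64 * g6 + 128 * g7 := by
    rw [hGe]
    simp only [eval_add, eval_mul, eval_C, eval_X, eval_pow]
    ring
  have key : C (-8 * g1 - 324 * r0 + 64 * k) + C (-3 * g0 - 16 * g2 + 756 * r0 - 324 * r1) * X +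
      C (-2 * g1 - 24 * g3 - 729 * r0 + 756 * r1 - 324 * r2 - 16 * k) * X ^ 2 +
      C (-g2 - 32 * g4 + 372 * r0 - 729 * r1 + 756 * r2) * X ^ 3 +
      C (-40 * g5 - 106 * r0 + 372 * r1 - 729 * r2 + k) * X ^ 4 +
      C (g4 - 48 * g6 + 16 * r0 - 106 * r1 + 372 * r2) * X ^ 5 +
      C (2 * g5 - 56 * g7 - r0 + 16 * r1 - 106 * r2) * X ^ 6 +
      C (3 * g6 - r1 + 16 * r2) * X ^ 7 + C (4 * g7 - r2) * X ^ 8 = (0 : (ZMod p)[X]) := by
    rw [hGe] at h
    unfold LL at h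
    simp only [derivative_add, derivative_C_mul, derivative_C, derivative_X, derivative_X_pow, Nat.cast_ofNat] at h
    simp only [map_add, map_sub, map_mul, map_neg, map_ofNat]
    simp only [map_ofNat] at h
    linear_combination h
  obtain ⟨e0, e1, e2, e3, e4, e5, e6, e7, e8⟩ := coeffs key
  refine ⟨by linear_combination e4 + 20 * e6 + 280 * e8, ?_⟩
  have h16 : (16 : ZMod p) = 2 * 8 := by norm_num
  have h8 : (8 : ZMod p) ≠ 0 := by
    have : (8 : ZMod p) = 2 ^ 3 := by norm_num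
    rw [this]
    exact pow_ne_zero _ h2
  rw [h16, mul_comm (2 : ZMod p) 8, mul_div_mul_left _ _ h8, hev]
  have h3 : (2 : ZMod p) * (6 * ((g0 + 2 * g1 + 4 * g2 + 8 * g3 + 16 * g4 + 32 * g5 + 64 * g6 + 128 * g7) / 2)) =
      2 * (-2375 * r0 + 13044 * r1 - 58980 * r2) := by
    have h4 : (2 : ZMod p) * (6 * ((g0 + 2 * g1 + 4 * g2 + 8 * g3 + 16 * g4 + 32 * g5 + 64 * g6 + 128 * g7) / 2)) =
        6 * (g0 + 2 * g1 + 4 * g2 + 8 * g3 + 16 * g4 + 32 * g5 + 64 * g6 + 128 * g7) := by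
      field_simp
    rw [h4]
    linear_combination -e0 - 2 * e1 - 2 * e2 + 8 * e3 + 32 * e4 + 352 * e5 + 736 * e6 + 5760 * e7 + 10496 * e8
  exact mul_left_cancel₀ h2 h3

end Pool.Agent.Y119.PiH
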